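import Pool.Agent.FrechetQ.CZero

set_option autoImplicit false

open Filter Topology ZeroAtInfty

namespace Pool.Agent.Results.MP_34b873_an.CZeroOmegaOne

universe u

/-- The real Banach space `C₀[0, ω₁)` with the supremum norm: the continuous functions on the
interval `[0, ω₁)` of ordinals which vanish at infinity. -/
abbrev X : Type 1 := ZeroAtInftyContinuousMap (Set.Iio (Ordinal.omega 1 : Ordinal.{0})) ℝ

section defs

variable (E : Type u) [NormedAddCommGroup E] [NormedSpace ℝ E]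

/-- `p` is an equivalent norm of `E`. -/
def IsEquivNorm (p : Seminorm ℝ E) : Prop :=
  ∃ c C : ℝ, 0 < c ∧ ∀ x : E, c * ‖x‖ ≤ p x ∧ p x ≤ C * ‖x‖

/-- `p` is Fréchet differentiable at every point different from `0`. -/
def IsFrechet (p : Seminorm ℝ E) : Prop :=
  ∀ x : E, x ≠ 0 → DifferentiableAt ℝ (fun z : E => p z) x

/-- `E` has an equivalent Fréchet differentiable norm. -/
def AdmitsFrechet : Prop := ∃ q : Seminorm ℝ E, IsEquivNorm E q ∧ IsFrechet E q

/-- The dual norm `‖f‖* = sup {|f x| : p x ≤ 1}`. -/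
noncomputable def dualNorm (p : Seminorm ℝ E) (f : E →L[ℝ] ℝ) : ℝ :=
  sSup ((fun x : E => |f x|) '' {x : E | p x ≤ 1})

/-- The dual norm of `p` is locally uniformly rotund. -/
def DualIsLUR (p : Seminorm ℝ E) : Prop :=
  ∀ (f : E →L[ℝ] ℝ) (g : ℕ → E →L[ℝ] ℝ), dualNorm E p f = 1 → (∀ n, dualNorm E p (g n) = 1) →
    Tendsto (fun n => dualNorm E p (g n + f)) atTop (𝓝 2) →
    Tendsto (fun n => dualNorm E p (g n - f)) atTop (𝓝 0)

/-- The dual norm of `p` is strictly convex (rotund). -/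
def DualIsRotund (p : Seminorm ℝ E) : Prop :=
  ∀ f g : E →L[ℝ] ℝ, dualNorm E p f = 1 → dualNorm E p g = 1 →
    dualNorm E p (f + g) = 2 → f = g

end defs

/-! ### auxiliary statements -/

section aux

open Pool.Agent.FrechetQ

variable {E : Type u} [NormedAddCommGroup E] [NormedSpace ℝ E]

lemma quotient_of (Y : Submodule ℝ E) [hYc : IsClosed (Y : Set E)] (p : Seminorm ℝ E)
    (c C : ℝ) (hc : 0 < c)
    (hp : ∀ x : E, c * Metric.infDist x (Y : Set E) ≤ p x ∧
      p x ≤ C * Metric.infDist x (Y : Set E))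
    (hd : ∀ x : E, x ∉ Y → DifferentiableAt ℝ (fun z : E => p z) x) :
    AdmitsFrechet (E ⧸ Y) := by
  have hnorm : ∀ x : E, ‖(Submodule.Quotient.mk x : E ⧸ Y)‖ = Metric.infDist x (Y : Set E) :=
    fun x => QuotientAddGroup.norm_mk (S := Y.toAddSubgroup) x
  have h0 : ∀ y ∈ Y, p y = 0 := by
    intro y hy
    refine le_antisymm ?_ (apply_nonneg p y)
    have := (hp y).2
    rwa [Metric.infDist_zero_of_mem hy, mul_zero] at this
  have hadd : ∀ x, ∀ y ∈ Y, p (x + y) = p x := by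
    intro x y hy
    refine le_antisymm ?_ ?_
    · have := map_add_le_add p x y
      rwa [h0 y hy, add_zero] at this
    · have := map_add_le_add p (x + y) (-y)
      rwa [add_neg_cancel_right, h0 (-y) (Y.neg_mem hy), add_zero] at this
  have hwd : ∀ x x' : E, (Submodule.Quotient.mk x : E ⧸ Y) = Submodule.Quotient.mk x' →
      p x = p x' := by
    intro x x' h
    rw [Submodule.Quotient.eq] at h
    have := hadd x' (x - x') h
    rwa [add_sub_cancel] at this
  -- a section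
  have hsec : ∀ v : E ⧸ Y, ∃ x : E, (Submodule.Quotient.mk x : E ⧸ Y) = v ∧ ‖x‖ ≤ 2 * ‖v‖ := by
    intro v
    by_cases hv : v = 0
    · exact ⟨0, by rw [hv]; rfl, by rw [hv]; simp⟩
    · have hv' : 0 < ‖v‖ := norm_pos_iff.2 hv
      obtain ⟨m, hm, hm2⟩ := Submodule.Quotient.norm_mk_lt v hv'
      exact ⟨m, hm, by linarith⟩
  choose s hs1 hs2 using hsec
  let q : Seminorm ℝ (E ⧸ Y) := Seminorm.of (fun v => p (s v))
    (fun u v => by
      have h1 : p (s (u + v)) = p (s u + s v) := hwd _ _ (by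
        rw [hs1, Submodule.Quotient.mk_add, hs1, hs1])
      rw [h1]
      exact map_add_le_add p _ _)
    (fun a v => by
      have h1 : p (s (a • v)) = p (a • s v) := hwd _ _ (by
        rw [hs1, Submodule.Quotient.mk_smul, hs1])
      rw [h1]
      exact map_smul_eq_mul p _ _)
  have hq : ∀ v, q v = p (s v) := fun v => rfl
  have hqm : ∀ x : E, q (Submodule.Quotient.mk x) = p x := fun x => by
    rw [hq]
    exact hwd _ _ (hs1 _)
  refine ⟨q, ⟨c, C, hc, fun v => ?_⟩, fun v hv => ?_⟩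
  · rw [hq]
    have h1 := hnorm (s v)
    rw [hs1] at h1
    rw [h1]
    exact hp (s v)
  · have hx : s v ∉ Y := by
      intro h
      apply hv
      rw [← hs1 v]
      exact (Submodule.Quotient.mk_eq_zero Y).2 h
    obtain ⟨L, hL⟩ := hd (s v) hx
    -- the derivative vanishes on `Y`
    have hLY : ∀ y ∈ Y, L y = 0 := by
      intro y hy
      have h1 : HasDerivAt (fun t : ℝ => p (s v + t • y)) (L y) 0 := by
        have h2 : HasDerivAt (fun t : ℝ => s v + t • y) y 0 := by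
          simpa using ((hasDerivAt_id (0 : ℝ)).smul_const y).const_add (s v)
        have h3 : HasFDerivAt (fun z : E => p z) L (s v + (0 : ℝ) • y) := by
          rw [zero_smul, add_zero]; exact hL
        exact h3.comp_hasDerivAt (0 : ℝ) h2
      have h2 : (fun t : ℝ => p (s v + t • y)) = fun _ => p (s v) := by
        funext t
        exact hadd _ _ (Y.smul_mem t hy)
      rw [h2] at h1
      exact h1.unique (hasDerivAt_const (0 : ℝ) (p (s v)))
    let M : (E ⧸ Y) →ₗ[ℝ] ℝ := Y.liftQ (L : E →ₗ[ℝ] ℝ) (fun y hy => hLY y hy)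
    have hM : ∀ x : E, M (Submodule.Quotient.mk x) = L x := fun x => rfl
    have hMs : ∀ u, M u = L (s u) := fun u => by rw [← hM, hs1]
    let M' : (E ⧸ Y) →L[ℝ] ℝ := M.mkContinuous (‖L‖ * 2) (fun u => by
      rw [hMs]
      calc ‖L (s u)‖ ≤ ‖L‖ * ‖s u‖ := L.le_opNorm _
        _ ≤ ‖L‖ * (2 * ‖u‖) := by gcongr; exact hs2 u
        _ = ‖L‖ * 2 * ‖u‖ := by ring)
    refine ⟨M', ?_⟩
    rw [hasFDerivAt_iff_isLittleO_nhds_zero] at hL ⊢
    have hT : Tendsto s (𝓝 0) (𝓝 0) := by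
      refine squeeze_zero_norm (a := fun u => 2 * ‖u‖) (fun u => hs2 u) ?_
      have : Tendsto (fun u : E ⧸ Y => 2 * ‖u‖) (𝓝 0) (𝓝 (2 * ‖(0 : E ⧸ Y)‖)) :=
        (continuous_norm.const_smul (2 : ℝ)).tendsto 0
      rwa [norm_zero, mul_zero] at this
    have h1 := (hL.comp_tendsto hT).trans_isBigO (k := fun u : E ⧸ Y => u)
      (Asymptotics.isBigO_of_le' (c := 2) _ fun u => hs2 u)
    refine h1.congr (fun u => ?_) (fun u => rfl)
    simp only [Function.comp]
    have e1 : q (v + u) = p (s v + s u) := by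
      rw [hq]
      refine hwd _ _ ?_
      rw [hs1, Submodule.Quotient.mk_add, hs1, hs1]
    have e2 : M' u = L (s u) := hMs u
    rw [e1, e2, hq]

/-- the identification with the space of the construction -/
noncomputable def e : X ≃ₗᵢ[ℝ] XX Om := eX isoOm

lemma quotients (Y : Submodule ℝ X) [hYc : IsClosed (Y : Set X)] :
    AdmitsFrechet (X ⧸ Y) := by
  let Y' : Submodule ℝ (XX Om) := Y.map (e.toLinearEquiv : X →ₗ[ℝ] XX Om)
  have hY'c : (Y' : Set (XX Om)) = e '' (Y : Set X) := by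
    ext z
    simp [Y']
  have hY' : IsClosed (Y' : Set (XX Om)) := by
    rw [hY'c]
    exact e.toHomeomorph.isClosedMap _ hYc
  obtain ⟨p, ⟨c, C, hc, hp⟩, hd⟩ := quotients_smooth Y' hY'
  have hdist : ∀ x : X, Metric.infDist (e x) (Y' : Set (XX Om)) = Metric.infDist x (Y : Set X) := by
    intro x
    rw [hY'c]
    exact Metric.infDist_image e.isometry
  refine quotient_of Y (p.comp (e.toLinearEquiv : X →ₗ[ℝ] XX Om)) c C hc (fun x => ?_)
    (fun x hx => ?_)
  · have h1 := hp (e x)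
    rw [hdist] at h1
    exact h1
  · have h1 : e x ∉ Y' := by
      intro h
      have h2 : e x ∈ (Y' : Set (XX Om)) := h
      rw [hY'c] at h2
      obtain ⟨y, hy, hyx⟩ := h2
      exact hx (e.injective hyx ▸ hy)
    exact (hd (e x) h1).comp x (e.toContinuousLinearEquiv.differentiableAt)

lemma dualNorm_comp (N : Seminorm ℝ X) (f : StrongDual ℝ (XX Om)) :
    dualNorm X N (f.comp (e.toContinuousLinearEquiv : X →L[ℝ] XX Om)) =
      nst (N.comp (e.symm.toLinearEquiv : XX Om →ₗ[ℝ] X)) f := by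
  unfold dualNorm nst
  have hset : ((fun x : X => |(f.comp (e.toContinuousLinearEquiv : X →L[ℝ] XX Om)) x|) ''
      {x : X | N x ≤ 1}) = (fun x : XX Om => |f x|) ''
        {x | N.comp (e.symm.toLinearEquiv : XX Om →ₗ[ℝ] X) x ≤ 1} := by
    ext r
    constructor
    · rintro ⟨x, hx, rfl⟩
      refine ⟨e x, ?_, rfl⟩
      change N (e.symm (e x)) ≤ 1
      rw [e.symm_apply_apply]
      exact hx
    · rintro ⟨x, hx, rfl⟩
      refine ⟨e.symm x, hx, ?_⟩
      change |f (e (e.symm x))| = |f x|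
      rw [e.apply_symm_apply]
  rw [hset]
  set N' := N.comp (e.symm.toLinearEquiv : XX Om →ₗ[ℝ] X) with hN'
  -- the absolute value may be dropped by symmetry
  have hneg : ∀ x, N' (-x) = N' x := fun x => map_neg_eq_map N' x
  by_cases hb : BddAbove ((fun x : XX Om => f x) '' {x | N' x ≤ 1})
  · have hb2 : BddAbove ((fun x : XX Om => |f x|) '' {x | N' x ≤ 1}) := by
      obtain ⟨B, hB⟩ := hb
      refine ⟨B, ?_⟩
      rintro _ ⟨x, hx, rfl⟩
      refine abs_le'.2 ⟨hB ⟨x, hx, rfl⟩, hB ⟨-x, ?_, by simp⟩⟩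
      change N' (-x) ≤ 1
      rw [hneg]; exact hx
    refine le_antisymm ?_ ?_
    · refine csSup_le ⟨|f 0|, 0, by change N' 0 ≤ 1; rw [map_zero]; exact zero_le_one, rfl⟩ ?_
      rintro _ ⟨x, hx, rfl⟩
      refine abs_le'.2 ⟨le_csSup hb ⟨x, hx, rfl⟩, le_csSup hb ⟨-x, ?_, by simp⟩⟩
      change N' (-x) ≤ 1
      rw [hneg]; exact hx
    · refine csSup_le (nst_ne N' f) ?_
      rintro _ ⟨x, hx, rfl⟩
      exact (le_abs_self (f x)).trans (le_csSup hb2 ⟨x, hx, rfl⟩)
  · have hb2 : ¬ BddAbove ((fun x : XX Om => |f x|) '' {x | N' x ≤ 1}) := by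
      rintro ⟨B, hB⟩
      apply hb
      refine ⟨B, ?_⟩
      rintro _ ⟨x, hx, rfl⟩
      exact (le_abs_self (f x)).trans (hB ⟨x, hx, rfl⟩)
    rw [Real.sSup_of_not_bddAbove hb, Real.sSup_of_not_bddAbove hb2]

lemma nst_smul (N : Seminorm ℝ (XX Om)) (f : StrongDual ℝ (XX Om)) {r : ℝ} (hr : 0 ≤ r) :
    nst N (r • f) = r * nst N f := by
  unfold nst
  rw [← smul_eq_mul, ← Real.sSup_smul_of_nonneg hr]
  congr 1
  ext z
  simp only [Set.mem_image, Set.mem_smul_set]
  constructor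
  · rintro ⟨x, hx, rfl⟩
    exact ⟨f x, ⟨x, hx, rfl⟩, rfl⟩
  · rintro ⟨_, ⟨x, hx, rfl⟩, rfl⟩
    exact ⟨x, hx, rfl⟩

lemma not_rotund (N : Seminorm ℝ X) (hN : IsEquivNorm X N) :
    ∃ f g : X →L[ℝ] ℝ, f ≠ g ∧ dualNorm X N f = 1 ∧ dualNorm X N g = 1 ∧ dualNorm X N (f + g) = 2 := by
  obtain ⟨c, C, hc, hN⟩ := hN
  set N' := N.comp (e.symm.toLinearEquiv : XX Om →ₗ[ℝ] X) with hN'
  have hN'' : ∀ x, c * ‖x‖ ≤ N' x := by
    intro x
    have h1 := (hN (e.symm x)).1
    rw [e.symm.norm_map] at h1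
    exact h1
  obtain ⟨s, t, S, hst, hS, hs, ht, hsum⟩ := no_rotund_aux N' c hc hN''
  have hS1 : 0 ≤ S⁻¹ := (inv_pos.2 hS).le
  refine ⟨(S⁻¹ • dl s : StrongDual ℝ (XX Om)).comp (e.toContinuousLinearEquiv : X →L[ℝ] XX Om),
    (S⁻¹ • dl t : StrongDual ℝ (XX Om)).comp (e.toContinuousLinearEquiv : X →L[ℝ] XX Om),
    ?_, ?_, ?_, ?_⟩
  · intro h
    have h1 : ∀ x : X, (S⁻¹ • dl s : StrongDual ℝ (XX Om)) (e x) =
        (S⁻¹ • dl t : StrongDual ℝ (XX Om)) (e x) := fun x => by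
      have := congrArg (fun k : X →L[ℝ] ℝ => k x) h
      exact this
    refine dl_ne hst ?_
    ext x
    have h2 := h1 (e.symm x)
    rw [e.apply_symm_apply, smul_apply, smul_apply, smul_eq_mul, smul_eq_mul] at h2
    exact mul_left_cancel₀ (inv_pos.2 hS).ne' h2
  · rw [dualNorm_comp, nst_smul _ _ hS1, hs, inv_mul_cancel₀ hS.ne']
  · rw [dualNorm_comp, nst_smul _ _ hS1, ht, inv_mul_cancel₀ hS.ne']
  · rw [← ContinuousLinearMap.add_comp, ← smul_add, dualNorm_comp, nst_smul _ _ hS1, hsum]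
    field_simp

end aux

/-- `C₀[0, ω₁)` is a Banach space, each of its quotients by a closed subspace has an equivalent
Fréchet differentiable norm, but no equivalent norm of `C₀[0, ω₁)` has a dual norm which is strictly
convex; in particular none has a locally uniformly rotund dual norm. -/
theorem result :
    CompleteSpace X ∧
    (∀ (Y : Submodule ℝ X) [IsClosed (Y : Set X)], AdmitsFrechet (X ⧸ Y)) ∧
    (∀ p : Seminorm ℝ X, IsEquivNorm X p → ¬ DualIsRotund X p) ∧
    (∀ p : Seminorm ℝ X, IsEquivNorm X p → ¬ DualIsLUR X p) := by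
  refine ⟨inferInstance, fun Y _ => quotients Y, fun p hp h => ?_, fun p hp h => ?_⟩
  · obtain ⟨f, g, hfg, h1, h2, h3⟩ := not_rotund p hp
    exact hfg (h f g h1 h2 h3)
  · obtain ⟨f, g, hfg, h1, h2, h3⟩ := not_rotund p hp
    have h4 := h f (fun _ => g) h1 (fun _ => h2) (by
      rw [add_comm g f, h3]; exact tendsto_const_nhds)
    have h5 : dualNorm X p (g - f) = 0 := tendsto_nhds_unique tendsto_const_nhds h4
    -- the dual norm separates points
    apply hfg
    obtain ⟨c, C, hc, hN⟩ := hp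
    have hbd : BddAbove ((fun x : X => |(g - f) x|) '' {x : X | p x ≤ 1}) := by
      refine ⟨‖g - f‖ * c⁻¹, ?_⟩
      rintro _ ⟨x, hx, rfl⟩
      have h6 : ‖x‖ ≤ c⁻¹ := by
        have := (hN x).1.trans hx
        rwa [mul_comm, ← le_div_iff₀ hc, one_div] at this
      exact ((g - f).le_opNorm x).trans (by gcongr)
    ext x
    by_contra hne
    have hx0 : (g - f) x ≠ 0 := by
      rw [sub_apply, sub_ne_zero]
      exact fun h => hne h.symm
    have hxn : x ≠ 0 := by
      rintro rfl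
      exact hx0 (map_zero _)
    have hp0 : 0 < p x := lt_of_lt_of_le (mul_pos hc (norm_pos_iff.2 hxn)) (hN x).1
    have h6 := le_csSup hbd ⟨(p x)⁻¹ • x, by
      change p ((p x)⁻¹ • x) ≤ 1
      rw [map_smul_eq_mul, norm_inv, Real.norm_eq_abs, abs_of_pos hp0, inv_mul_cancel₀ hp0.ne'],
      rfl⟩
    have h7 : |(g - f) ((p x)⁻¹ • x)| ≤ dualNorm X p (g - f) := h6
    rw [h5, map_smul, smul_eq_mul] at h7
    have h8 : (p x)⁻¹ * (g - f) x = 0 := abs_nonpos_iff.1 h7
    rcases mul_eq_zero.1 h8 with h | h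
    · exact (inv_pos.2 hp0).ne' h
    · exact hx0 h

end Pool.Agent.Results.MP_34b873_an.CZeroOmegaOne
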